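import Pool.Agent.MP_3ce0a0_al.H79.XS

/-
A complement to the inner automorphisms up to finite index, by the Fox calculus.
-/

namespace Pool.Agent.MP_3ce0a0_al.H10

open FreeGroup hiding map_mul map_one map_inv
open Pool.Agent.MP_3ce0a0_al.H79 Pool.Agent.MP_3ce0a0_al.H79.X

section fox
variable {ι R : Type} [DecidableEq ι] [CommRing R]

omit [DecidableEq ι] in
lemma g_inv (g : FreeGroup ι →* R) (x : FreeGroup ι) : g x⁻¹ * g x = 1 := by
  rw [← map_mul, inv_mul_cancel, map_one]

/-- the affine action attached to a character. -/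
def aff (g : FreeGroup ι →* R) : FreeGroup ι →* Equiv.Perm (ι → R) :=
  lift fun i =>
    { toFun := fun v => Pi.single i 1 + g (of i) • v
      invFun := fun v => g (of i)⁻¹ • (v - Pi.single i 1)
      left_inv := fun v => by
        simp only [add_sub_cancel_left, smul_smul, g_inv, one_smul]
      right_inv := fun v => by
        simp only [smul_smul, mul_comm (g (of i)), g_inv, one_smul, add_sub_cancel] }

lemma aff_of (g : FreeGroup ι →* R) (i : ι) (v : ι → R) :
    aff g (of i) v = Pi.single i 1 + g (of i) • v := by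
  simp [aff]

lemma aff_eq (g : FreeGroup ι →* R) (x : FreeGroup ι) :
    ∀ v, aff g x v = aff g x 0 + g x • v := by
  induction x using FreeGroup.induction_on with
  | C1 => intro v; simp
  | of i => intro v; simp [aff_of]
  | inv_of i h =>
    intro v
    have h1 : ∀ w, aff g (of i)⁻¹ w = g (of i)⁻¹ • (w - Pi.single i 1) := fun w => by
      rw [map_inv, Equiv.Perm.inv_eq_iff_eq, aff_of, smul_smul, mul_comm, g_inv, one_smul,
        add_sub_cancel]
    rw [h1, h1, smul_sub, smul_sub, smul_zero]
    abel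
  | mul x y hx hy =>
    intro v
    rw [map_mul, Equiv.Perm.mul_apply, Equiv.Perm.mul_apply, hx, hy, hx (aff g y 0), map_mul,
      smul_add, smul_smul, add_assoc]

/-- the Fox derivative. -/
def fox (g : FreeGroup ι →* R) (x : FreeGroup ι) : ι → R := aff g x 0

lemma fox_mul (g : FreeGroup ι →* R) (x y : FreeGroup ι) :
    fox g (x * y) = fox g x + g x • fox g y := by
  rw [fox, map_mul, Equiv.Perm.mul_apply, aff_eq]
  rfl

lemma fox_of (g : FreeGroup ι →* R) (i : ι) : fox g (of i) = Pi.single i 1 := by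
  simp [fox, aff_of]

omit [DecidableEq ι] in
lemma der_one {M : Type} [AddCommGroup M] [Module R M] {g : FreeGroup ι →* R}
    {d : FreeGroup ι → M} (h : ∀ x y, d (x * y) = d x + g x • d y) : d 1 = 0 := by
  have := h 1 1
  rw [mul_one, map_one, one_smul] at this
  exact left_eq_add.1 this

omit [DecidableEq ι] in
lemma der_inv {M : Type} [AddCommGroup M] [Module R M] {g : FreeGroup ι →* R}
    {d : FreeGroup ι → M} (h : ∀ x y, d (x * y) = d x + g x • d y) (x : FreeGroup ι) :
    d x⁻¹ = -(g x⁻¹ • d x) := by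
  have := h x⁻¹ x
  rw [inv_mul_cancel, der_one h] at this
  exact eq_neg_of_add_eq_zero_left this.symm

omit [DecidableEq ι] in
lemma der_ext {M : Type} [AddCommGroup M] [Module R M] {g : FreeGroup ι →* R}
    {d e : FreeGroup ι → M} (h : ∀ x y, d (x * y) = d x + g x • d y)
    (k : ∀ x y, e (x * y) = e x + g x • e y) (hg : ∀ i, d (of i) = e (of i)) (x : FreeGroup ι) :
    d x = e x := by
  induction x using FreeGroup.induction_on with
  | C1 => rw [der_one h, der_one k]
  | of i => exact hg i
  | inv_of i _ => rw [der_inv h, der_inv k, hg]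
  | mul x y hx hy => rw [h, k, hx, hy]

/-- the Jacobian matrix. -/
def jac (g : FreeGroup ι →* R) (α : A ι) : Matrix ι ι R := Matrix.of fun i => fox g (α (of i))

variable [Fintype ι]

lemma chain (g : FreeGroup ι →* R) (α : A ι) (w : FreeGroup ι) :
    fox g (α w) = Matrix.vecMul (fox (g.comp α.toMonoidHom) w) (jac g α) := by
  refine der_ext (g := g.comp α.toMonoidHom) (d := fun w => fox g (α w))
    (e := fun w => Matrix.vecMul (fox (g.comp α.toMonoidHom) w) (jac g α)) ?_ ?_ ?_ w
  · intro x y
    simp only [map_mul, fox_mul]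
    rfl
  · intro x y
    simp only [fox_mul, Matrix.add_vecMul, Matrix.smul_vecMul]
  · intro i
    simp only [fox_of, Matrix.single_one_vecMul]
    rfl

lemma jac_mul (g : FreeGroup ι →* R) (α β : A ι) :
    jac g (α * β) = jac (g.comp α.toMonoidHom) β * jac g α := by
  ext i j
  change fox g (α (β (of i))) j = _
  rw [chain]
  rfl

/-- the Jacobian determinant. -/
def dj (g : FreeGroup ι →* R) (α : A ι) : R := (jac g α).det

lemma dj_mul (g : FreeGroup ι →* R) (α β : A ι) :
    dj g (α * β) = dj (g.comp α.toMonoidHom) β * dj g α := by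
  rw [dj, jac_mul, Matrix.det_mul]
  rfl

lemma dj_one (g : FreeGroup ι →* R) : dj g 1 = 1 := by
  have : jac g 1 = 1 := by
    ext i j
    change fox g (of i) j = _
    rw [fox_of, Matrix.one_apply, Pi.single_apply]
    simp [eq_comm]
  rw [dj, this, Matrix.det_one]

lemma dj_inv (g : FreeGroup ι →* R) (α : A ι) :
    dj g α⁻¹ * dj (g.comp α⁻¹.toMonoidHom) α = 1 := by
  have h : (g.comp α⁻¹.toMonoidHom).comp α.toMonoidHom = g := by
    ext i
    simp
  have := dj_mul (g.comp α⁻¹.toMonoidHom) α α⁻¹
  rw [mul_inv_cancel, dj_one, h] at this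
  exact this.symm

lemma dj_row (g : FreeGroup ι →* R) (α : A ι) (a : ι) (h : ∀ c, c ≠ a → α (of c) = of c) :
    dj g α = fox g (α (of a)) a := by
  have : jac g α = (1 : Matrix ι ι R).updateRow a (fox g (α (of a))) := by
    ext i j
    change fox g (α (of i)) j = _
    by_cases k : i = a
    · subst k
      simp
    · rw [Matrix.updateRow_ne k, h i k, fox_of, Matrix.one_apply, Pi.single_apply]
      simp [eq_comm]
  rw [dj, this, ← Matrix.cramer_transpose_apply, Matrix.transpose_one, Matrix.cramer_one]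
  rfl

lemma dj_perm (g : FreeGroup ι →* R) (α : A ι) (σ : Equiv.Perm ι) (h : ∀ c, α (of c) = of (σ c)) :
    dj g α = ((Equiv.Perm.sign σ : ℤ) : R) := by
  have : jac g α = (1 : Matrix ι ι R).submatrix σ id := by
    ext i j
    change fox g (α (of i)) j = _
    rw [h, fox_of, Matrix.submatrix_apply, Matrix.one_apply, Pi.single_apply]
    simp [eq_comm]
  rw [dj, this, Matrix.det_permute, Matrix.det_one, mul_one]

omit [DecidableEq ι] [Fintype ι] in
lemma comp_conj (g : FreeGroup ι →* R) (x : FreeGroup ι) :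
    g.comp (MulAut.conj x).toMonoidHom = g := by
  ext i
  change g (x * of i * x⁻¹) = _
  rw [map_mul, map_mul, mul_right_comm, mul_comm (g x), g_inv, one_mul]

lemma dj_conj_of (g : FreeGroup ι →* R) (a : ι) :
    dj g (MulAut.conj (of a)) = g (of a) ^ (Fintype.card ι - 1) := by
  have : jac g (MulAut.conj (of a)) = (g (of a) • (1 : Matrix ι ι R)).updateCol a
      (fun i => if i = a then 1 else 1 - g (of i)) := by
    ext i j
    change fox g (of a * of i * (of a)⁻¹) j = _
    rw [fox_mul, fox_mul, der_inv (fox_mul g), fox_of, fox_of, map_mul, smul_neg, smul_smul,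
      mul_right_comm, mul_comm (g (of a)), g_inv, one_mul]
    by_cases k : j = a
    · subst k
      by_cases l : i = j
      · subst l
        simp
      · simp [l, Ne.symm l, sub_eq_add_neg]
    · rw [Matrix.updateCol_ne k]
      simp [k, Matrix.one_apply, Pi.single_apply, eq_comm]
  rw [dj, this, ← Matrix.cramer_apply, Matrix.cramer_smul, Matrix.cramer_one]
  simp

lemma dj_conj (hn : Even (Fintype.card ι)) (g : FreeGroup ι →* R) (hg : ∀ x, g x * g x = 1)
    (x : FreeGroup ι) : dj g (MulAut.conj x) = g x := by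
  let φ : FreeGroup ι →* R :=
    { toFun := fun x => dj g (MulAut.conj x)
      map_one' := by rw [map_one, dj_one]
      map_mul' := fun x y => by rw [map_mul, dj_mul, comp_conj, mul_comm] }
  have : φ = g := FreeGroup.ext_hom _ _ fun a => by
    change dj g (MulAut.conj (of a)) = _
    rw [dj_conj_of]
    have h0 : 0 < Fintype.card ι := Fintype.card_pos_iff.2 ⟨a⟩
    obtain ⟨m, hm⟩ := hn
    have : Fintype.card ι - 1 = 2 * (m - 1) + 1 := by omega
    rw [this, pow_succ, pow_mul, pow_two, hg, one_pow, one_mul]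
  exact DFunLike.congr_fun this x

end fox

/-- the coefficient ring. -/
abbrev Rg : Type := DualNumber (ZMod 2)

lemma rg_neg (x : Rg) : -x = x := by
  ext <;> simp [ZMod.neg_eq_self_mod_two]

/-- the sign character of the cyclic group of order two. -/
def sg2 : Multiplicative (ZMod 2) →* Rg where
  toFun t := 1 + TrivSqZeroExt.inr t.toAdd
  map_one' := by simp
  map_mul' s t := by
    ext <;> simp [add_comm]

lemma sg2_eq {t : Multiplicative (ZMod 2)} (h : sg2 t = 1) : t = 1 := by
  have := congrArg TrivSqZeroExt.snd h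
  simpa [sg2] using this

variable {ι : Type} [Fintype ι] [DecidableEq ι]

lemma n2_kill (g : FreeGroup ι →* Rg) (hg : ∀ x, g x * g x = 1) {x : FreeGroup ι}
    (hx : x ∈ N2 ι) : g x = 1 := by
  have hp : ∀ (i : ι) (s t : ZMod 2),
      g (of i) ^ (s + t).val = g (of i) ^ s.val * g (of i) ^ t.val := by
    intro i s t
    have h2 : g (of i) ^ 2 = 1 := by rw [pow_two, hg]
    rw [← pow_add, ZMod.val_add, ← pow_eq_pow_mod _ h2]
  let ψ : Multiplicative (ι → ZMod 2) →* Rg :=
    { toFun := fun q => ∏ i, g (of i) ^ (q.toAdd i).val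
      map_one' := by simp
      map_mul' := fun p q => by
        simp only [toAdd_mul, Pi.add_apply, hp, Finset.prod_mul_distrib] }
  have : g = ψ.comp (lift fun i => Multiplicative.ofAdd (Pi.single i 1 : ι → ZMod 2)) :=
    FreeGroup.ext_hom _ _ fun a => by
      rw [MonoidHom.comp_apply, lift_apply_of]
      change _ = ∏ i, g (of i) ^ ((Pi.single a 1 : ι → ZMod 2) i).val
      rw [Finset.prod_eq_single a (fun b _ hb => by simp [hb]) (by simp)]
      simp [ZMod.val_one]
  rw [this, MonoidHom.comp_apply, MonoidHom.mem_ker.1 hx, map_one]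

omit [Fintype ι] in
lemma n2_of {x : FreeGroup ι}
    (h : ∀ g : FreeGroup ι →* Rg, (∀ x, g x * g x = 1) → g x = 1) : x ∈ N2 ι := by
  refine MonoidHom.mem_ker.2 ?_
  set π := lift fun i => Multiplicative.ofAdd (Pi.single i 1 : ι → ZMod 2)
  ext i
  let ev : Multiplicative (ι → ZMod 2) →* Multiplicative (ZMod 2) :=
    (Pi.evalAddMonoidHom (fun _ => ZMod 2) i).toMultiplicative
  have h1 := h (sg2.comp (ev.comp π)) fun y => by
    rw [← map_mul]
    have : ∀ t : Multiplicative (ZMod 2), t * t = 1 := by decide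
    simp only [MonoidHom.comp_apply, map_mul]
    rw [← map_mul, this, map_one]
  exact congrArg Multiplicative.toAdd (sg2_eq h1)

theorem sembA (h : SNiel) : SEmbA := by
  intro ι _ _ hn
  let E : Subgroup (A ι) :=
    { carrier := {α | ∀ g : FreeGroup ι →* Rg, (∀ x, g x * g x = 1) → dj g α = 1}
      one_mem' := fun g _ => dj_one g
      mul_mem' := fun {α β} ha hb g hg => by
        rw [dj_mul, ha g hg, hb (g.comp α.toMonoidHom) fun x => hg _, mul_one]
      inv_mem' := fun {α} ha g hg => by
        have := dj_inv g α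
        rwa [ha (g.comp α⁻¹.toMonoidHom) fun x => hg _, mul_one] at this }
  let G : Subgroup (A ι) :=
    { carrier := {α | ∃ x, ∀ g : FreeGroup ι →* Rg, (∀ x, g x * g x = 1) → dj g α = g x}
      one_mem' := ⟨1, fun g _ => by rw [dj_one, map_one]⟩
      mul_mem' := fun {α β} ⟨x, ha⟩ ⟨y, hb⟩ => ⟨α y * x, fun g hg => by
        rw [dj_mul, ha g hg, hb (g.comp α.toMonoidHom) fun x => hg _, map_mul]
        rfl⟩
      inv_mem' := fun {α} ⟨x, ha⟩ => ⟨α⁻¹ x, fun g hg => by
        have h1 := dj_inv g α
        rw [ha (g.comp α⁻¹.toMonoidHom) fun x => hg _] at h1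
        have h2 : g (α⁻¹ x) * g (α⁻¹ x) = 1 := hg _
        calc dj g α⁻¹ = dj g α⁻¹ * (g (α⁻¹ x) * g (α⁻¹ x)) := by rw [h2, mul_one]
          _ = g (α⁻¹ x) := by
            rw [← mul_assoc]
            exact (congrArg (· * g (α⁻¹ x)) h1).trans (one_mul _)⟩ }
  have hG : G = ⊤ := h ι G
    (fun α a b hab ha hc => ⟨1, fun g _ => by
      rw [dj_row g α a hc, ha, fox_mul, fox_of, fox_of]
      simp [hab]⟩)
    (fun α a ha hc => ⟨(of a)⁻¹, fun g _ => by
      rw [dj_row g α a hc, ha, der_inv (fox_mul g), fox_of]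
      simp [rg_neg]⟩)
    fun α σ hs => ⟨1, fun g _ => by
      rw [dj_perm g α σ hs, map_one]
      rcases Int.units_eq_one_or (Equiv.Perm.sign σ) with e | e <;> simp [e, rg_neg]⟩
  refine ⟨E, fun α => ?_, fun x => ⟨fun hx => n2_of fun g hg => ?_, fun hx g hg => ?_⟩⟩
  · obtain ⟨x, hx⟩ : α ∈ G := hG ▸ Subgroup.mem_top α
    refine ⟨x, fun g hg => ?_⟩
    rw [dj_mul, comp_conj, hx g hg, dj_conj hn g hg, hg]
  · rw [← dj_conj hn g hg]
    exact hx g hg
  · rw [dj_conj hn g hg]
    exact n2_kill g hg hx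

end Pool.Agent.MP_3ce0a0_al.H10
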